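import Pool.Agent.H712Z.Cot.Grid

set_option autoImplicit false

namespace Pool.Agent.Results.MP_a656fc_an.AGridsEmbed

open Pool.Agent.H712Z.Grid

/-- For every `q > 2` there is a Banach space of Rademacher cotype `q` into which the sup-norm grids
of side `⌈n ^ (1 / q)⌉` in dimension `n` embed with distortion `o (n ^ (1 / q))`. -/
theorem result (q : ℝ) (hq : 2 < q) :
    ∃ (Y : Type) (_ : NormedAddCommGroup Y) (_ : NormedSpace ℝ Y), CompleteSpace Y ∧
      HasCotype Y q ∧ ∀ c : ℝ, 0 < c → ∃ N : ℕ, ∀ n : ℕ, N ≤ n →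
        GridEmbeds Y ⌈(n : ℝ) ^ (1 / q)⌉₊ n (c * (n : ℝ) ^ (1 / q)) :=
  main' q hq

end Pool.Agent.Results.MP_a656fc_an.AGridsEmbed
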